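import Mathlib
import Pool.Agent.Helper75.QPointsE

open Filter Set Cardinal

namespace Pool.Agent.Results.MP_97d187_lc.QPointCount

/-- A Q-point: a non-principal ultrafilter `U` on `ℕ` such that for every partition `P` of `ℕ`
into finite sets some `X ∈ U` meets every piece of `P` in at most one point. -/
def IsQPoint (U : Ultrafilter ℕ) : Prop :=
  (∀ n : ℕ, ({n} : Set ℕ) ∉ U) ∧
    ∀ P : Set (Set ℕ), Setoid.IsPartition P → (∀ p ∈ P, p.Finite) →
      ∃ X ∈ U, ∀ p ∈ P, (X ∩ p).Subsingleton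

/-- Two ultrafilters on `ℕ` are isomorphic if some permutation `f` of `ℕ` satisfies
`V = {f[X] : X ∈ U}`. -/
def Isomorphic (U V : Ultrafilter ℕ) : Prop :=
  ∃ f : Equiv.Perm ℕ, {Y : Set ℕ | Y ∈ V} = {Y : Set ℕ | ∃ X ∈ U, Y = f '' X}

theorem isomorphic_iff {U V : Ultrafilter ℕ} :
    Isomorphic U V ↔ ∃ f : Equiv.Perm ℕ, V = U.map f := by
  have key : ∀ (f : Equiv.Perm ℕ) (Y : Set ℕ), (∃ X ∈ U, Y = f '' X) ↔ Y ∈ U.map f := by
    intro f Y
    rw [Ultrafilter.mem_map]
    constructor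
    · rintro ⟨X, hX, rfl⟩
      rw [f.injective.preimage_image]
      exact hX
    · intro h
      refine ⟨_, h, ?_⟩
      rw [f.surjective.image_preimage]
  constructor
  · rintro ⟨f, hf⟩
    refine ⟨f, ?_⟩
    ext Y
    have := Set.ext_iff.1 hf Y
    exact this.trans (key f Y)
  · rintro ⟨f, rfl⟩
    refine ⟨f, ?_⟩
    ext Y
    exact (key f Y).symm

/-- Isomorphism, as an equivalence relation on the set of all Q-points. -/
def qPointSetoid : Setoid {U : Ultrafilter ℕ // IsQPoint U} where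
  r U V := Isomorphic U.1 V.1
  iseqv := by
    refine ⟨fun U => ?_, fun {U V} h => ?_, fun {U V W} h1 h2 => ?_⟩
    · rw [isomorphic_iff]
      exact ⟨Equiv.refl ℕ, (Ultrafilter.map_id U.1).symm⟩
    · rw [isomorphic_iff] at h ⊢
      obtain ⟨f, hf⟩ := h
      refine ⟨f.symm, ?_⟩
      rw [hf, Ultrafilter.map_map]
      have : (f.symm : ℕ → ℕ) ∘ f = id := by
        funext x
        simp
      rw [this, Ultrafilter.map_id]
    · rw [isomorphic_iff] at h1 h2 ⊢
      obtain ⟨f, hf⟩ := h1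
      obtain ⟨g, hg⟩ := h2
      refine ⟨f.trans g, ?_⟩
      rw [hg, hf, Ultrafilter.map_map]
      rfl

theorem isQPoint_iff {U : Ultrafilter ℕ} : IsQPoint U ↔ Helper75.QP.QPt U := by
  have hnp : (∀ n : ℕ, ({n} : Set ℕ) ∉ U) ↔ (U : Filter ℕ) ≤ cofinite := by
    rw [le_cofinite_iff_compl_singleton_mem]
    constructor
    · intro h n
      exact Ultrafilter.compl_mem_iff_notMem.2 (h n)
    · intro h n
      exact Ultrafilter.compl_mem_iff_notMem.1 (h n)
  constructor
  · rintro ⟨h1, h2⟩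
    refine ⟨hnp.1 h1, fun f hf => ?_⟩
    obtain ⟨X, hX, hXp⟩ := h2 (Setoid.ker f).classes (Setoid.isPartition_classes _) (by
      rintro p ⟨y, rfl⟩
      apply (hf (f y)).subset
      intro x hx
      exact hx)
    refine ⟨X, hX, fun x hx y hy hxy => ?_⟩
    exact hXp _ (Setoid.mem_classes (Setoid.ker f) y) ⟨hx, hxy⟩ ⟨hy, rfl⟩
  · rintro ⟨h1, h2⟩
    refine ⟨hnp.2 h1, fun P hP hfin => ?_⟩
    have hex : ∀ a : ℕ, ∃ b ∈ P, a ∈ b := fun a => by
      obtain ⟨b, hb, _⟩ := hP.2 a
      exact ⟨b, hb.1, hb.2⟩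
    choose b hb1 hb2 using hex
    have huniq : ∀ a c, c ∈ P → a ∈ c → c = b a := fun a c hc hac =>
      (hP.2 a).unique ⟨hc, hac⟩ ⟨hb1 a, hb2 a⟩
    have hinf : ∀ a, sInf (b a) ∈ b a := fun a => Nat.sInf_mem ⟨a, hb2 a⟩
    have hbinf : ∀ a, b a = b (sInf (b a)) := fun a => huniq _ _ (hb1 a) (hinf a)
    obtain ⟨X, hX, hXi⟩ := h2 (fun a => sInf (b a)) (by
      intro n
      apply (hfin _ (hb1 n)).subset
      intro a ha
      have h3 : sInf (b a) = n := ha
      rw [← h3, ← hbinf a]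
      exact hb2 a)
    refine ⟨X, hX, ?_⟩
    rintro p hp x ⟨hx1, hx2⟩ y ⟨hy1, hy2⟩
    apply hXi hx1 hy1
    have h3 := huniq x p hp hx2
    have h4 := huniq y p hp hy2
    simp only
    rw [← h3, ← h4]

/-- Up to isomorphism, the number of Q-points is finite or at least the continuum. -/
theorem result : #(Quotient qPointSetoid) < ℵ₀ ∨ 𝔠 ≤ #(Quotient qPointSetoid) := by
  rcases finite_or_infinite (Quotient qPointSetoid) with hfin | hinf
  · left
    exact Cardinal.lt_aleph0_of_finite _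
  · right
    obtain ⟨e⟩ : Nonempty (ℕ ↪ Quotient qPointSetoid) := ⟨Infinite.natEmbedding _⟩
    obtain ⟨F, hF1, hF2⟩ := Helper75.QP.exists_many (V := fun k => ((e k).out).1)
      (fun k => isQPoint_iff.1 ((e k).out).2) (by
        intro k l hkl hiso
        apply hkl
        apply e.injective
        rw [← Quotient.out_eq (e k), ← Quotient.out_eq (e l)]
        apply Quotient.sound
        change Isomorphic _ _
        rw [isomorphic_iff]
        exact hiso)
    have hQ : ∀ x, IsQPoint ((F x).map Nat.pairEquiv) := fun x =>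
      isQPoint_iff.2 ((hF1 x).map_equiv Nat.pairEquiv)
    let G : (ℕ → Bool) → Quotient qPointSetoid := fun x =>
      Quotient.mk qPointSetoid ⟨(F x).map Nat.pairEquiv, hQ x⟩
    have hG : Function.Injective G := by
      intro x y hxy
      by_contra hne
      have h1 : Isomorphic ((F x).map Nat.pairEquiv) ((F y).map Nat.pairEquiv) :=
        Quotient.exact hxy
      rw [isomorphic_iff] at h1
      obtain ⟨f, hf⟩ := h1
      apply hF2 x y hne ((Nat.pairEquiv.trans f).trans Nat.pairEquiv.symm)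
      have h2 : ((F y).map Nat.pairEquiv).map Nat.pairEquiv.symm = F y := by
        rw [Ultrafilter.map_map]
        have : (Nat.pairEquiv.symm : ℕ → ℕ × ℕ) ∘ Nat.pairEquiv = id := by
          funext p
          exact Nat.pairEquiv.symm_apply_apply p
        rw [this, Ultrafilter.map_id]
      rw [← h2, hf, Ultrafilter.map_map, Ultrafilter.map_map]
      rfl
    have h3 : #(ℕ → Bool) ≤ #(Quotient qPointSetoid) := ⟨⟨G, hG⟩⟩
    have h4 : #(ℕ → Bool) = 𝔠 := by simp
    rw [← h4]
    exact h3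

end Pool.Agent.Results.MP_97d187_lc.QPointCount
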